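import Pool.Agent.W190.A15
import Pool.Agent.W190.C3

/-! # Lower bounds on every window -/

set_option autoImplicit false
set_option maxHeartbeats 4000000

open Complex Filter Topology Set Metric MeasureTheory
open H353 (FF mu)

namespace Pool.Agent.W190

noncomputable section

theorem zero_FF {s : ℂ} (h : riemannZeta s = 0) : FF s = 0 ∧ s.re < 1 := by
  have h1 : s.re < 1 := by
    by_contra h2
    exact riemannZeta_ne_zero_of_one_le_re (not_lt.1 h2) h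
  refine ⟨?_, h1⟩
  have hs1 : s ≠ 1 := by
    rintro rfl
    simp at h1
  rw [FF_eq_ne hs1, h, mul_zero]

/-- the choice of the parameters -/
theorem params {κ θ β : ℝ} (hκ : 0 ≤ κ) (hθ : 1 / 2 ≤ θ) (hcond : 4 * θ * (1 - θ) * (κ + 1) ≤ 1)
    (hβ : θ < β) (hβ1 : β < 1) : ∃ σ α : ℝ, θ < σ ∧ σ < β ∧ 0 ≤ α ∧ (κ + 1) * α < 1 ∧ Dens σ α := by
  set σ : ℝ := (θ + β) / 2 with hσ
  have h1 : θ < σ := by rw [hσ]; linarith
  have h2 : σ < β := by rw [hσ]; linarith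
  have h3 : 4 * σ * (1 - σ) < 4 * θ * (1 - θ) := by nlinarith
  have h4 : (κ + 1) * (4 * σ * (1 - σ)) < 1 := by nlinarith
  set ε : ℝ := (1 - (κ + 1) * (4 * σ * (1 - σ))) / (2 * (κ + 1)) with hε
  have hε0 : 0 < ε := div_pos (by linarith) (by linarith)
  have h5 : (κ + 1) * (4 * σ * (1 - σ) + ε) < 1 := by
    have : (κ + 1) * ε = (1 - (κ + 1) * (4 * σ * (1 - σ))) / 2 := by
      rw [hε]
      field_simp
    rw [mul_add, this]
    linarith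
  refine ⟨σ, 4 * σ * (1 - σ) + ε, h1, h2, ?_, h5, carlson σ ε (by linarith) (by linarith) hε0⟩
  have : 0 ≤ 4 * σ * (1 - σ) := by
    have : 0 ≤ 1 - σ := by linarith
    have : 0 ≤ σ := by linarith
    positivity
  linarith

theorem upgrade {g : ℝ → Polynomial ℝ → ℝ} {δ β θ : ℝ} (h : θ < β)
    (hm : ∀ᶠ x : ℝ in atTop, ∀ P : Polynomial ℝ, P.natDegree ≤ ⌊Real.log x ^ δ⌋₊ → x ^ (1 + β) ≤ g x P) :
    ∀ᶠ x : ℝ in atTop, ∀ P : Polynomial ℝ, (P.natDegree : ℝ) ≤ Real.log x ^ δ → x ^ (1 + θ) < g x P := by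
  filter_upwards [hm, eventually_gt_atTop 1] with x h1 h2 P hP
  exact (Real.rpow_lt_rpow_of_exponent_lt h2 (by linarith)).trans_le (h1 P (Nat.le_floor hP))

theorem floor_ok (δ : ℝ) : ∀ᶠ u : ℝ in atTop, ((⌊u ^ δ⌋₊ : ℕ) : ℝ) ≤ u ^ δ := by
  filter_upwards [eventually_ge_atTop 0] with u hu
  exact Nat.floor_le (Real.rpow_nonneg hu δ)

/-- the Mertens function on every window -/
theorem moebius_window {κ θ c δ : ℝ} (hκ : 0 ≤ κ) (hc : 0 < c) (hδ : δ < 1) (hθ : 1 / 2 ≤ θ)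
    (hcond : 4 * θ * (1 - θ) * (κ + 1) ≤ 1) (hz : ∃ s : ℂ, riemannZeta s = 0 ∧ θ < s.re) :
    ∀ᶠ x : ℝ in atTop, ∀ P : Polynomial ℝ, (P.natDegree : ℝ) ≤ Real.log x ^ δ →
      x ^ (1 + θ) < ∫ y in x..(x + c * x / Real.log x ^ κ),
        |SF (fun n => ((ArithmeticFunction.moebius n : ℤ) : ℝ)) y - P.eval y| := by
  obtain ⟨ρ, hρ0, hρθ⟩ := hz
  obtain ⟨hF, hρ1⟩ := zero_FF hρ0
  obtain ⟨σ, α, h1, h2, h3, h4, h5⟩ := params hκ hθ hcond hρθ hρ1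
  refine upgrade (β := ρ.re - (ρ.re - θ) / 2) (by linarith) ?_
  refine to_x (fun n => ((ArithmeticFunction.moebius n : ℤ) : ℝ)) hκ hc (fun u => ⌊u ^ δ⌋₊) ?_
  have := moebius_u (θ := (σ + ρ.re) / 2) (by linarith) (by linarith) hκ hc h3 h4 h5 ρ hF (by linarith)
    (fun u => ⌊u ^ δ⌋₊) hδ (floor_ok δ) ((ρ.re - θ) / 2) (by linarith)
  simpa using this

/-- the Chebyshev function on every window -/
theorem mangoldt_window {κ θ c δ : ℝ} (hκ : 0 ≤ κ) (hc : 0 < c) (hδ : δ < 1) (hθ : 1 / 2 ≤ θ)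
    (hcond : 4 * θ * (1 - θ) * (κ + 1) ≤ 1) (hz : ∃ s : ℂ, riemannZeta s = 0 ∧ θ < s.re) :
    ∀ᶠ x : ℝ in atTop, ∀ P : Polynomial ℝ, (P.natDegree : ℝ) ≤ Real.log x ^ δ →
      x ^ (1 + θ) < ∫ y in x..(x + c * x / Real.log x ^ κ),
        |SF (fun n => ArithmeticFunction.vonMangoldt n) y - P.eval y| := by
  obtain ⟨ρ, hρ0, hρθ⟩ := hz
  obtain ⟨hF, hρ1⟩ := zero_FF hρ0
  obtain ⟨σ, α, h1, h2, h3, h4, h5⟩ := params hκ hθ hcond hρθ hρ1
  refine upgrade (β := ρ.re - (ρ.re - θ) / 2) (by linarith) ?_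
  refine to_x (fun n => ArithmeticFunction.vonMangoldt n) hκ hc (fun u => ⌊u ^ δ⌋₊) ?_
  exact mangoldt_u (θ := (σ + ρ.re) / 2) (by linarith) (by linarith) hκ hc h3 h4 h5 ρ hF (by linarith)
    (fun u => ⌊u ^ δ⌋₊) hδ (floor_ok δ) ((ρ.re - θ) / 2) (by linarith)

end

end Pool.Agent.W190
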