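import Mathlib

/-! # Averages, differences and shifts of functions on the line -/

set_option autoImplicit false

open Complex MeasureTheory Filter Topology Set

namespace Pool.Agent.W190

noncomputable section

/-- local integrability -/
def LI (f : ℝ → ℂ) : Prop := ∀ a b : ℝ, IntervalIntegrable f volume a b

/-- the average over `[w, w + h]` -/
def avg (h : ℝ) (f : ℝ → ℂ) (w : ℝ) : ℂ := (h : ℂ)⁻¹ * ∫ v in w..(w + h), f v

/-- the difference quotient -/
def dif (h : ℝ) (f : ℝ → ℂ) (w : ℝ) : ℂ := (f (w + h) - f w) / h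

/-- the operator `1 - c E^d` -/
def shf (d : ℝ) (c : ℂ) (f : ℝ → ℂ) (w : ℝ) : ℂ := f w - c * f (w + d)

theorem LI.avg_continuous {f : ℝ → ℂ} (hf : LI f) (h : ℝ) : Continuous (avg h f) := by
  have h1 : Continuous fun w : ℝ => ∫ v in (0:ℝ)..w, f v :=
    intervalIntegral.continuous_primitive hf 0
  have e : avg h f = fun w => (h : ℂ)⁻¹ * ((∫ v in (0:ℝ)..(w + h), f v) - ∫ v in (0:ℝ)..w, f v) := by
    funext w
    unfold avg
    rw [intervalIntegral.integral_interval_sub_left (hf _ _) (hf _ _)]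
  rw [e]
  exact continuous_const.mul ((h1.comp (continuous_id.add continuous_const)).sub h1)

theorem LI.of_continuous {f : ℝ → ℂ} (hf : Continuous f) : LI f := fun a b => hf.intervalIntegrable a b

theorem LI.avg {f : ℝ → ℂ} (hf : LI f) (h : ℝ) : LI (avg h f) := LI.of_continuous (hf.avg_continuous h)

theorem LI.add {f g : ℝ → ℂ} (hf : LI f) (hg : LI g) : LI (fun v => f v + g v) :=
  fun a b => (hf a b).add (hg a b)

theorem avg_add {f g : ℝ → ℂ} (hf : LI f) (hg : LI g) (h : ℝ) :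
    avg h (fun v => f v + g v) = fun w => avg h f w + avg h g w := by
  funext w
  unfold avg
  rw [intervalIntegral.integral_add (hf _ _) (hg _ _)]
  ring

theorem dif_add (f g : ℝ → ℂ) (h : ℝ) :
    dif h (fun v => f v + g v) = fun w => dif h f w + dif h g w := by
  funext w
  unfold dif
  ring

theorem shf_add (f g : ℝ → ℂ) (d : ℝ) (c : ℂ) :
    shf d c (fun v => f v + g v) = fun w => shf d c f w + shf d c g w := by
  funext w
  unfold shf
  ring

/-- iterated averages -/
def avgs (h : ℝ) : ℕ → (ℝ → ℂ) → ℝ → ℂ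
  | 0, f => f
  | n + 1, f => avg h (avgs h n f)

/-- iterated shifts: the product of the operators `1 - exp(-r d) E^d`, `r` in the list -/
def shfs (d : ℝ) : List ℂ → (ℝ → ℂ) → ℝ → ℂ
  | [], f => f
  | r :: L, f => shf d (cexp (-(r * d))) (shfs d L f)

theorem avgs_LI {f : ℝ → ℂ} (hf : LI f) (h : ℝ) (n : ℕ) : LI (avgs h n f) := by
  induction n with
  | zero => exact hf
  | succ n ih => exact ih.avg h

theorem avgs_cont {f : ℝ → ℂ} (hf : Continuous f) (h : ℝ) (n : ℕ) : Continuous (avgs h n f) := by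
  induction n with
  | zero => exact hf
  | succ n ih => exact (LI.of_continuous ih).avg_continuous h

theorem avgs_add {f g : ℝ → ℂ} (hf : LI f) (hg : LI g) (h : ℝ) (n : ℕ) :
    avgs h n (fun v => f v + g v) = fun w => avgs h n f w + avgs h n g w := by
  induction n with
  | zero => rfl
  | succ n ih =>
    simp only [avgs]
    rw [ih, avg_add (avgs_LI hf h n) (avgs_LI hg h n)]

theorem shfs_add (f g : ℝ → ℂ) (d : ℝ) (L : List ℂ) :
    shfs d L (fun v => f v + g v) = fun w => shfs d L f w + shfs d L g w := by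
  induction L with
  | nil => rfl
  | cons r L ih =>
    simp only [shfs]
    rw [ih, shf_add]

/-- the whole operator -/
def Op (h d : ℝ) (N : ℕ) (L : List ℂ) (f : ℝ → ℂ) : ℝ → ℂ := shfs d L (dif h (avgs h N (avg h f)))

theorem Op_add {f g : ℝ → ℂ} (hf : LI f) (hg : LI g) (h d : ℝ) (N : ℕ) (L : List ℂ) :
    Op h d N L (fun v => f v + g v) = fun w => Op h d N L f w + Op h d N L g w := by
  unfold Op
  rw [avg_add hf hg, avgs_add (hf.avg h) (hg.avg h), dif_add, shfs_add]

/-! ## sup bounds -/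

/-- bound on an interval -/
def BD (f : ℝ → ℂ) (C a b : ℝ) : Prop := ∀ w : ℝ, a ≤ w → w ≤ b → ‖f w‖ ≤ C

theorem BD.first {f : ℝ → ℂ} (hf : LI f) {h a b : ℝ} (hh : 0 < h) :
    BD (Pool.Agent.W190.avg h f) ((∫ v in a..b, ‖f v‖) / h) a (b - h) := by
  intro w h1 h2
  unfold Pool.Agent.W190.avg
  rw [norm_mul, norm_inv, Complex.norm_real, Real.norm_eq_abs, abs_of_pos hh, div_eq_inv_mul]
  refine mul_le_mul_of_nonneg_left ?_ (by positivity)
  have hle : w ≤ w + h := by linarith
  have hab : a ≤ b := by linarith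
  refine (intervalIntegral.norm_integral_le_integral_norm hle).trans ?_
  rw [intervalIntegral.integral_of_le hle, intervalIntegral.integral_of_le hab]
  refine setIntegral_mono_set ?_ (Eventually.of_forall fun v => norm_nonneg _) ?_
  · have := (hf a b).norm
    rwa [intervalIntegrable_iff_integrableOn_Ioc_of_le hab] at this
  · exact LE.le.eventuallyLE (Ioc_subset_Ioc h1 (by linarith))

theorem BD.avg {f : ℝ → ℂ} {C h a b : ℝ} (hb : BD f C a b) (hh : 0 < h) :
    BD (Pool.Agent.W190.avg h f) C a (b - h) := by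
  intro w h1 h2
  unfold Pool.Agent.W190.avg
  rw [norm_mul, norm_inv, Complex.norm_real, Real.norm_eq_abs, abs_of_pos hh]
  have hle : w ≤ w + h := by linarith
  have h3 : ‖∫ v in w..(w + h), f v‖ ≤ C * |w + h - w| := by
    refine intervalIntegral.norm_integral_le_of_norm_le_const fun v hv => ?_
    rw [uIoc_of_le hle] at hv
    exact hb v (by linarith [hv.1]) (by linarith [hv.2])
  have e : |w + h - w| = h := by
    rw [add_sub_cancel_left, abs_of_pos hh]
  rw [e] at h3
  calc h⁻¹ * ‖∫ v in w..(w + h), f v‖ ≤ h⁻¹ * (C * h) := mul_le_mul_of_nonneg_left h3 (by positivity)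
    _ = C := by field_simp

theorem BD.avgs {f : ℝ → ℂ} {C h a b : ℝ} (hb : BD f C a b) (hh : 0 < h) (n : ℕ) :
    BD (Pool.Agent.W190.avgs h n f) C a (b - n * h) := by
  induction n with
  | zero => simpa [Pool.Agent.W190.avgs] using hb
  | succ n ih =>
    have := ih.avg hh
    have e : b - ((n + 1 : ℕ) : ℝ) * h = b - n * h - h := by push_cast; ring
    rw [e]
    exact this

theorem BD.dif {f : ℝ → ℂ} {C h a b : ℝ} (hb : BD f C a b) (hh : 0 < h) :
    BD (Pool.Agent.W190.dif h f) (2 * C / h) a (b - h) := by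
  intro w h1 h2
  unfold Pool.Agent.W190.dif
  rw [norm_div, Complex.norm_real, Real.norm_eq_abs, abs_of_pos hh]
  refine div_le_div_of_nonneg_right ?_ hh.le
  refine (norm_sub_le _ _).trans ?_
  have := hb (w + h) (by linarith) (by linarith)
  have := hb w h1 (by linarith)
  linarith

theorem BD.shf {f : ℝ → ℂ} {C d a b : ℝ} {c : ℂ} (hb : BD f C a b) (hd : 0 ≤ d) (hc : ‖c‖ ≤ 1) :
    BD (Pool.Agent.W190.shf d c f) (2 * C) a (b - d) := by
  intro w h1 h2
  unfold Pool.Agent.W190.shf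
  refine (norm_sub_le _ _).trans ?_
  have h3 := hb (w + d) (by linarith) (by linarith)
  have h4 := hb w h1 (by linarith)
  rw [norm_mul]
  have : ‖c‖ * ‖f (w + d)‖ ≤ 1 * ‖f (w + d)‖ := mul_le_mul_of_nonneg_right hc (norm_nonneg _)
  linarith

theorem exp_le_one {r : ℂ} {d : ℝ} (hd : 0 ≤ d) (hr : 0 ≤ r.re) : ‖cexp (-(r * d))‖ ≤ 1 := by
  rw [Complex.norm_exp]
  apply Real.exp_le_one_iff.2
  have e : (-(r * (d : ℂ))).re = -(r.re * d) := by simp
  rw [e]
  have := mul_nonneg hr hd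
  linarith

theorem BD.shfs {f : ℝ → ℂ} {C d a b : ℝ} (hb : BD f C a b) (hd : 0 ≤ d) (L : List ℂ)
    (hL : ∀ r ∈ L, 0 ≤ r.re) :
    BD (Pool.Agent.W190.shfs d L f) (2 ^ L.length * C) a (b - L.length * d) := by
  induction L with
  | nil => simpa [Pool.Agent.W190.shfs] using hb
  | cons r L ih =>
    have h1 := ih (fun r hr => hL r (List.mem_cons_of_mem _ hr))
    have h2 := h1.shf hd (exp_le_one hd (hL r List.mem_cons_self))
    simp only [List.length_cons, Pool.Agent.W190.shfs]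
    have e1 : (2:ℝ) ^ (L.length + 1) * C = 2 * (2 ^ L.length * C) := by rw [pow_succ]; ring
    have e2 : b - ((L.length + 1 : ℕ) : ℝ) * d = b - L.length * d - d := by push_cast; ring
    rw [e1, e2]
    exact h2

theorem Op_bound {f : ℝ → ℂ} (hf : LI f) {h d a b : ℝ} (hh : 0 < h) (hd : 0 ≤ d) (N : ℕ) (L : List ℂ)
    (hL : ∀ r ∈ L, 0 ≤ r.re) (hlen : (N + 2) * h + L.length * d ≤ b - a) :
    ‖Op h d N L f a‖ ≤ 2 ^ L.length * (2 * ((∫ v in a..b, ‖f v‖) / h) / h) := by
  have h1 := ((((BD.first hf hh (a := a) (b := b)).avgs hh N).dif hh).shfs hd L hL)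
  have := h1 a le_rfl (by linarith)
  exact this

/-! ## exponentials -/

/-- `(exp (s h) - 1) / (s h)` -/
def kap (h : ℝ) (s : ℂ) : ℂ := (cexp (s * h) - 1) / (s * h)

/-- sums of exponentials `∑_{k ≤ D} c_k exp (k v)` -/
def PE (D : ℕ) (c : ℕ → ℂ) (v : ℝ) : ℂ := ∑ k ∈ Finset.range (D + 1), c k * cexp (k * v)

theorem PE_cont (D : ℕ) (c : ℕ → ℂ) : Continuous (PE D c) := by
  unfold PE
  fun_prop

theorem avg_PE (D : ℕ) (c : ℕ → ℂ) (h : ℝ) (hh : 0 < h) : ∃ c' : ℕ → ℂ, avg h (PE D c) = PE D c' := by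
  have hhc : (h : ℂ) ≠ 0 := by exact_mod_cast hh.ne'
  refine ⟨fun k => if k = 0 then c 0 else c k * kap h k, ?_⟩
  funext w
  unfold avg PE
  rw [intervalIntegral.integral_finsetSum]
  · rw [Finset.mul_sum]
    refine Finset.sum_congr rfl fun k _ => ?_
    rw [intervalIntegral.integral_const_mul]
    by_cases hk : k = 0
    · subst hk
      simp
      field_simp
    · have hkc : (k : ℂ) ≠ 0 := by exact_mod_cast hk
      simp only [if_neg hk]
      have h1 : ∫ v in w..(w + h), cexp (k * v) = (cexp (k * ((w + h : ℝ) : ℂ)) - cexp (k * (w : ℂ))) / k := by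
        rw [integral_exp_mul_complex hkc]
      rw [h1]
      unfold kap
      push_cast
      rw [mul_add, Complex.exp_add]
      field_simp
  · intro k _
    exact (Continuous.intervalIntegrable (by fun_prop) _ _)

theorem avgs_PE (D : ℕ) (c : ℕ → ℂ) (h : ℝ) (hh : 0 < h) (n : ℕ) :
    ∃ c' : ℕ → ℂ, avgs h n (PE D c) = PE D c' := by
  induction n with
  | zero => exact ⟨c, rfl⟩
  | succ n ih =>
    obtain ⟨c1, h1⟩ := ih
    obtain ⟨c2, h2⟩ := avg_PE D c1 h hh
    exact ⟨c2, by simp only [avgs]; rw [h1, h2]⟩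

theorem dif_PE (D : ℕ) (c : ℕ → ℂ) (h : ℝ) :
    ∃ c' : ℕ → ℂ, c' 0 = 0 ∧ dif h (PE D c) = PE D c' := by
  refine ⟨fun k => c k * ((cexp (k * h) - 1) / h), by simp, ?_⟩
  funext w
  unfold dif PE
  rw [← Finset.sum_sub_distrib, Finset.sum_div]
  refine Finset.sum_congr rfl fun k _ => ?_
  push_cast
  rw [mul_add, Complex.exp_add]
  ring

theorem shf_PE (D : ℕ) (c : ℕ → ℂ) (d : ℝ) (r : ℂ) :
    shf d (cexp (-(r * d))) (PE D c) = PE D (fun k => c k * (1 - cexp ((k - r) * d))) := by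
  funext w
  unfold shf PE
  rw [Finset.mul_sum, ← Finset.sum_sub_distrib]
  refine Finset.sum_congr rfl fun k _ => ?_
  have e1 : cexp (((k : ℂ) - r) * d) = cexp (k * d) * cexp (-(r * d)) := by
    rw [← Complex.exp_add]
    congr 1
    ring
  push_cast
  rw [e1, mul_add, Complex.exp_add]
  ring

theorem shfs_PE (D : ℕ) (d : ℝ) (L : List ℂ) (c : ℕ → ℂ) :
    shfs d L (PE D c) = PE D (fun k => c k * (L.map fun r => 1 - cexp ((k - r) * d)).prod) := by
  induction L with
  | nil => simp [shfs]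
  | cons r L ih =>
    simp only [shfs]
    rw [ih, shf_PE]
    congr 1
    funext k
    rw [List.map_cons, List.prod_cons]
    ring

/-- the operator kills the polynomial part -/
theorem Op_PE (D : ℕ) (c : ℕ → ℂ) {h : ℝ} (hh : 0 < h) (d : ℝ) (N : ℕ) (L : List ℂ)
    (hL : ∀ k ∈ Finset.Icc 1 D, (k : ℂ) ∈ L) : Op h d N L (PE D c) = fun _ => 0 := by
  unfold Op
  obtain ⟨c1, h1⟩ := avg_PE D c h hh
  obtain ⟨c2, h2⟩ := avgs_PE D c1 h hh N
  obtain ⟨c3, h30, h3⟩ := dif_PE D c2 h
  rw [h1, h2, h3, shfs_PE]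
  funext w
  unfold PE
  refine Finset.sum_eq_zero fun k hk => ?_
  rw [Finset.mem_range] at hk
  by_cases hk0 : k = 0
  · subst hk0
    simp only [h30]
    simp
  · have hm := hL k (Finset.mem_Icc.2 ⟨by omega, by omega⟩)
    have h0 : (L.map fun r => 1 - cexp ((k - r) * d)).prod = 0 := by
      rw [List.prod_eq_zero_iff, List.mem_map]
      exact ⟨k, hm, by simp⟩
    simp only [h0]
    simp

end

end Pool.Agent.W190
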