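import Pool.Agent.W190.A13

/-! # From the logarithmic scale to the usual one -/

set_option autoImplicit false
set_option maxHeartbeats 4000000

open Complex Filter Topology Set Metric MeasureTheory

namespace Pool.Agent.W190

noncomputable section

/-- the summatory function of a real sequence -/
def SF (a : ℕ → ℝ) (y : ℝ) : ℝ := ∑ n ∈ Finset.Icc 1 ⌊y⌋₊, a n

theorem TT_real (a : ℕ → ℝ) (v : ℝ) : TT (fun n => (a n : ℂ)) v = (SF a (Real.exp v) : ℂ) := by
  unfold TT SF
  push_cast
  rfl

theorem PE_real (P : Polynomial ℝ) (D : ℕ) (hP : P.natDegree ≤ D) (v : ℝ) :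
    PE (D + 1) (fun k => (P.coeff k : ℂ)) v = ((P.eval (Real.exp v) : ℝ) : ℂ) := by
  rw [Polynomial.eval_eq_sum_range' (n := D + 1 + 1) (by omega)]
  unfold PE
  push_cast
  refine Finset.sum_congr rfl fun k _ => ?_
  rw [← Complex.exp_nat_mul]

theorem diff_norm (a : ℕ → ℝ) (P : Polynomial ℝ) (D : ℕ) (hP : P.natDegree ≤ D) (v : ℝ) :
    ‖TT (fun n => (a n : ℂ)) v - PE (D + 1) (fun k => (P.coeff k : ℂ)) v‖ =
      |SF a (Real.exp v) - P.eval (Real.exp v)| := by
  rw [TT_real, PE_real P D hP, ← Complex.ofReal_sub, Complex.norm_real, Real.norm_eq_abs]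

theorem exp_image (u w : ℝ) : Real.exp '' Ioc u w = Ioc (Real.exp u) (Real.exp w) := by
  ext y
  constructor
  · rintro ⟨v, hv, rfl⟩
    exact ⟨Real.exp_lt_exp.2 hv.1, Real.exp_le_exp.2 hv.2⟩
  · rintro ⟨h1, h2⟩
    have hy : 0 < y := (Real.exp_pos u).trans h1
    refine ⟨Real.log y, ⟨(Real.lt_log_iff_exp_lt hy).2 h1, (Real.log_le_iff_le_exp hy).2 h2⟩,
      Real.exp_log hy⟩

theorem exp_change (g : ℝ → ℝ) {u w : ℝ} (h : u ≤ w) :
    ∫ y in (Real.exp u)..(Real.exp w), g y = ∫ v in Ioc u w, Real.exp v * g (Real.exp v) := by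
  rw [intervalIntegral.integral_of_le (Real.exp_le_exp.2 h), ← exp_image,
    integral_image_eq_integral_abs_deriv_smul measurableSet_Ioc
      (fun x _ => (Real.hasDerivAt_exp x).hasDerivWithinAt) Real.exp_injective.injOn]
  refine setIntegral_congr_fun measurableSet_Ioc fun v _ => ?_
  simp only [smul_eq_mul, abs_of_pos (Real.exp_pos v)]

theorem to_x (a : ℕ → ℝ) {κ c β : ℝ} (hκ : 0 ≤ κ) (hc : 0 < c) (D : ℝ → ℕ)
    (hm : ∀ᶠ u in atTop, ∀ cf : ℕ → ℂ, Real.exp (β * u) ≤
      ∫ v in u..(u + et c κ u), ‖TT (fun n => (a n : ℂ)) v - PE (D u + 1) cf v‖) :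
    ∀ᶠ x : ℝ in atTop, ∀ P : Polynomial ℝ, P.natDegree ≤ D (Real.log x) →
      x ^ (1 + β) ≤ ∫ y in x..(x + c * x / Real.log x ^ κ), |SF a y - P.eval y| := by
  filter_upwards [Real.tendsto_log_atTop.eventually hm, eventually_ge_atTop (Real.exp 1)] with x h1 h2 P hP
  have hx : 0 < x := (Real.exp_pos 1).trans_le h2
  have hu : 1 ≤ Real.log x := (Real.le_log_iff_exp_le hx).2 h2
  set u := Real.log x with hudef
  have hxu : Real.exp u = x := Real.exp_log hx
  have het := et_pos hc hκ hu
  have hend : x + c * x / u ^ κ = Real.exp (u + et c κ u) := by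
    rw [Real.exp_add, hxu]
    unfold et
    rw [Real.exp_log (by positivity), Real.rpow_neg (by linarith)]
    ring
  rw [hend]
  conv_rhs => rw [← hxu]
  rw [exp_change _ (by linarith)]
  have h3 := h1 (fun k => (P.coeff k : ℂ))
  simp only [diff_norm a P (D u) hP] at h3
  rw [intervalIntegral.integral_of_le (by linarith)] at h3
  have hpow : x ^ (1 + β) = Real.exp u * Real.exp (β * u) := by
    rw [Real.rpow_def_of_pos hx, ← Real.exp_add]
    congr 1
    rw [← hudef]
    ring
  rw [hpow]
  have hLI : IntegrableOn (fun v => |SF a (Real.exp v) - P.eval (Real.exp v)|) (Ioc u (u + et c κ u)) := by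
    have hT := TT_LI (fun n => (a n : ℂ)) u (u + et c κ u)
    have hP1 : IntervalIntegrable (PE (D u + 1) (fun k => (P.coeff k : ℂ))) volume u (u + et c κ u) :=
      (PE_cont _ _).intervalIntegrable _ _
    have h4 := (hT.sub hP1).norm
    rw [intervalIntegrable_iff_integrableOn_Ioc_of_le (by linarith)] at h4
    refine h4.congr (ae_of_all _ fun v => ?_)
    exact diff_norm a P (D u) hP v
  have hLI2 : IntegrableOn (fun v => Real.exp v * |SF a (Real.exp v) - P.eval (Real.exp v)|)
      (Ioc u (u + et c κ u)) := by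
    have h5 : IntervalIntegrable (fun v => |SF a (Real.exp v) - P.eval (Real.exp v)|) volume u
        (u + et c κ u) := by
      rw [intervalIntegrable_iff_integrableOn_Ioc_of_le (by linarith)]
      exact hLI
    have h6 := h5.continuousOn_mul (g := Real.exp) Real.continuous_exp.continuousOn
    rw [intervalIntegrable_iff_integrableOn_Ioc_of_le (by linarith)] at h6
    exact h6
  calc Real.exp u * Real.exp (β * u)
      ≤ Real.exp u * ∫ v in Ioc u (u + et c κ u), |SF a (Real.exp v) - P.eval (Real.exp v)| := by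
        gcongr
    _ = ∫ v in Ioc u (u + et c κ u), Real.exp u * |SF a (Real.exp v) - P.eval (Real.exp v)| := by
        rw [integral_const_mul]
    _ ≤ ∫ v in Ioc u (u + et c κ u), Real.exp v * |SF a (Real.exp v) - P.eval (Real.exp v)| := by
        refine setIntegral_mono_on (hLI.const_mul _) hLI2 measurableSet_Ioc fun v hv => ?_
        have := Real.exp_le_exp.2 hv.1.le
        gcongr

end

end Pool.Agent.W190
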