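import Pool.Agent.W190.A14

/-! # The two sequences -/

set_option autoImplicit false
set_option maxHeartbeats 4000000

open Complex Filter Topology Set Metric MeasureTheory
open H353 (FF mu mu_cast mu_pos FF_anal FF_order_ne_top zeros_finite FF_bound)

namespace Pool.Agent.W190

noncomputable section

theorem exists_F1 (ρ₀ : ℂ) : ∃ F1 : ℂ → ℂ, AnalyticAt ℂ F1 ρ₀ ∧ F1 ρ₀ ≠ 0 ∧
    ∀ᶠ z in 𝓝 ρ₀, FF z = (z - ρ₀) ^ mu ρ₀ • F1 z :=
  (FF_anal ρ₀).analyticOrderAt_eq_natCast.1 (mu_cast ρ₀).symm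

theorem FF_eq_ne {s : ℂ} (hs : s ≠ 1) : FF s = (s - 1) * riemannZeta s := ZU.J_g2b.FF_ne hs

theorem moebius_sum : Summable fun n : ℕ => ‖((ArithmeticFunction.moebius n : ℤ) : ℂ)‖ / (n : ℝ) ^ 2 := by
  refine Summable.of_nonneg_of_le (fun n => by positivity) (fun n => ?_)
    (Real.summable_one_div_nat_pow.2 (by norm_num : 1 < 2))
  have : ‖((ArithmeticFunction.moebius n : ℤ) : ℂ)‖ ≤ 1 := by
    rw [Complex.norm_intCast]
    exact_mod_cast ArithmeticFunction.abs_moebius_le_one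
  gcongr

theorem moebius_u {σ θ κ c α δ : ℝ} (hσ : 1 / 2 ≤ σ) (hθ : σ < θ) (hκ : 0 ≤ κ) (hc : 0 < c) (hα : 0 ≤ α)
    (hακ : (κ + 1) * α < 1) (hdens : Dens σ α) (ρ₀ : ℂ) (hρ0 : FF ρ₀ = 0) (hρθ : θ < ρ₀.re) (D : ℝ → ℕ)
    (hδ1 : δ < 1) (hDu : ∀ᶠ u in atTop, (D u : ℝ) ≤ u ^ δ)
    (ε : ℝ) (hε : 0 < ε) :
    ∀ᶠ u in atTop, ∀ cf : ℕ → ℂ, Real.exp ((ρ₀.re - ε) * u) ≤
      ∫ v in u..(u + et c κ u),
        ‖TT (fun n => ((ArithmeticFunction.moebius n : ℤ) : ℂ)) v - PE (D u + 1) cf v‖ := by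
  classical
  obtain ⟨F1, hF1, hF10, hF⟩ := exists_F1 ρ₀
  have hρ1 : ρ₀.re < 1 := ZU.J_g2b.FF_zero_re hρ0
  have hmu := mu_pos ρ₀ hρ0
  have hρne : ρ₀ - 1 ≠ 0 := by
    intro h
    have := congrArg Complex.re h
    simp at this
    linarith
  refine main_u (a := fun n => ((ArithmeticFunction.moebius n : ℤ) : ℂ)) (by simp) moebius_sum hσ hθ hκ hc
    hα hακ hdens ρ₀ hρ0 hρθ (fun ρ => if ρ = ρ₀ then mu ρ₀ - 1 else mu ρ) D hδ1 hDu (fun s => (s - 1) ^ 2)
    (by fun_prop) 0 ?_ ?_ ?_ F1 (fun s => (s - 1) ^ 2) hF1 (by fun_prop) hF10 (pow_ne_zero 2 hρne) hF ?_ ?_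
    1 zero_le_one 2 ?_ ε hε
  · simp only [if_true]
    omega
  · intro ρ hρ
    simp only [if_neg hρ]
  · simp
  · filter_upwards with z
    simp
  · intro s hs
    have h1 : 1 < s.re := by rw [hs]; norm_num
    have hs1 : s ≠ 1 := by
      rintro rfl
      norm_num at hs
    have h2 := ArithmeticFunction.LSeries_zeta_mul_Lseries_moebius h1
    rw [ArithmeticFunction.LSeries_zeta_eq_riemannZeta h1] at h2
    rw [FF_eq_ne hs1]
    linear_combination (s - 1) ^ 2 * h2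
  · intro z z1 z2
    rw [norm_pow, one_mul]
    refine pow_le_pow_left₀ (norm_nonneg _) ?_ 2
    have := Complex.norm_le_abs_re_add_abs_im (z - 1)
    rw [Complex.sub_re, Complex.sub_im, Complex.one_re, Complex.one_im, sub_zero] at this
    have h3 : |z.re - 1| ≤ 1 := abs_le.2 ⟨by linarith, by linarith⟩
    linarith

/-! ## von Mangoldt -/

theorem mangoldt_sum : Summable fun n : ℕ => ‖((ArithmeticFunction.vonMangoldt n : ℝ) : ℂ)‖ / (n : ℝ) ^ 2 := by
  have h := (ArithmeticFunction.LSeriesSummable_vonMangoldt (s := 2) (by norm_num)).norm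
  refine h.congr fun n => ?_
  by_cases hn : n = 0
  · subst hn
    simp
  · rw [LSeries.norm_term_eq, if_neg hn]
    have : ((2:ℂ)).re = 2 := by norm_num
    rw [this]
    congr 1
    exact_mod_cast Real.rpow_natCast (n : ℝ) 2

theorem deriv_FF_bound (s : ℂ) (hs : 1 / 2 ≤ s.re) : ‖deriv FF s‖ ≤ 20 * (2 + ‖s‖) ^ 2 := by
  have h := Complex.norm_deriv_le_of_forall_mem_sphere_norm_le (c := s) (R := 1 / 4)
    (C := 5 * (2 + ‖s‖) ^ 2) (f := FF) (by norm_num) (ZU.J_g2b.FF_diff.diffContOnCl) (by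
      intro z hz
      rw [mem_sphere_iff_norm] at hz
      have hre : 1 / 4 ≤ z.re := by
        have h1 := (abs_le.1 ((Complex.abs_re_le_norm (z - s)).trans hz.le)).1
        rw [Complex.sub_re] at h1
        linarith
      have hn : ‖z‖ ≤ ‖s‖ + 1 / 4 := by
        have := norm_add_le (z - s) s
        rw [sub_add_cancel, hz] at this
        linarith
      refine (FF_bound (1 / 4) (by norm_num) z hre).trans ?_
      have h5 : (1 + ‖z‖) ^ 2 ≤ (2 + ‖s‖) ^ 2 := pow_le_pow_left₀ (by positivity) (by linarith) 2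
      norm_num
      linarith)
  refine h.trans (le_of_eq ?_)
  ring

theorem mangoldt_u {σ θ κ c α δ : ℝ} (hσ : 1 / 2 ≤ σ) (hθ : σ < θ) (hκ : 0 ≤ κ) (hc : 0 < c) (hα : 0 ≤ α)
    (hακ : (κ + 1) * α < 1) (hdens : Dens σ α) (ρ₀ : ℂ) (hρ0 : FF ρ₀ = 0) (hρθ : θ < ρ₀.re) (D : ℝ → ℕ)
    (hδ1 : δ < 1) (hDu : ∀ᶠ u in atTop, (D u : ℝ) ≤ u ^ δ)
    (ε : ℝ) (hε : 0 < ε) :
    ∀ᶠ u in atTop, ∀ cf : ℕ → ℂ, Real.exp ((ρ₀.re - ε) * u) ≤
      ∫ v in u..(u + et c κ u),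
        ‖TT (fun n => ((ArithmeticFunction.vonMangoldt n : ℝ) : ℂ)) v - PE (D u + 1) cf v‖ := by
  classical
  obtain ⟨F1, hF1, hF10, hF⟩ := exists_F1 ρ₀
  have hρ1 : ρ₀.re < 1 := ZU.J_g2b.FF_zero_re hρ0
  have hmu := mu_pos ρ₀ hρ0
  have hρne : ρ₀ - 1 ≠ 0 := by
    intro h
    have := congrArg Complex.re h
    simp at this
    linarith
  set m := mu ρ₀ with hm
  set B1 : ℂ → ℂ := fun z => (z - ρ₀) * F1 z - (z - 1) * (m * F1 z + (z - ρ₀) * deriv F1 z) with hB1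
  have hB1a : AnalyticAt ℂ B1 ρ₀ := by
    have h1 := hF1.deriv
    rw [hB1]
    fun_prop
  have hB10 : B1 ρ₀ ≠ 0 := by
    rw [hB1]
    simp only [sub_self, zero_mul, add_zero, zero_sub, ne_eq, neg_eq_zero, mul_eq_zero, not_or]
    refine ⟨hρne, ?_, hF10⟩
    exact_mod_cast (by omega : m ≠ 0)
  have hFd : Differentiable ℂ FF := ZU.J_g2b.FF_diff
  have hBB : ∀ᶠ z in 𝓝 ρ₀, FF z - (z - 1) * deriv FF z = (z - ρ₀) ^ (m - 1) • B1 z := by
    have h1 : deriv FF =ᶠ[𝓝 ρ₀] deriv (fun z => (z - ρ₀) ^ m • F1 z) :=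
      EventuallyEq.deriv hF
    filter_upwards [h1, hF, hF1.eventually_analyticAt] with z z1 z2 z3
    have h2 : HasDerivAt (fun z => (z - ρ₀) ^ m • F1 z)
        ((m : ℂ) * (z - ρ₀) ^ (m - 1) * 1 * F1 z + (z - ρ₀) ^ m * deriv F1 z) z :=
      (((hasDerivAt_id z).sub_const ρ₀).pow m).mul z3.differentiableAt.hasDerivAt
    rw [z1, h2.deriv, z2]
    have h3 : (z - ρ₀) ^ m = (z - ρ₀) ^ (m - 1) * (z - ρ₀) := by
      rw [← pow_succ]
      congr 1
      omega
    rw [h3, hB1]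
    simp only [smul_eq_mul]
    ring
  refine main_u (a := fun n => ((ArithmeticFunction.vonMangoldt n : ℝ) : ℂ)) (by simp) mangoldt_sum hσ hθ
    hκ hc hα hακ hdens ρ₀ hρ0 hρθ (fun ρ => if ρ = ρ₀ then 0 else mu ρ) D hδ1 hDu
    (fun s => FF s - (s - 1) * deriv FF s) ?_ (m - 1) ?_ ?_ ?_ F1 B1 hF1 hB1a hF10 hB10 hF hBB ?_
    63 (by norm_num) 3 ?_ ε hε
  · have : Differentiable ℂ (deriv FF) := hFd.deriv
    fun_prop
  · simp only [if_true]
    omega
  · intro ρ hρ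
    simp only [if_neg hρ]
  · have hBd : Differentiable ℂ (fun s => FF s - (s - 1) * deriv FF s) := by
      have : Differentiable ℂ (deriv FF) := hFd.deriv
      fun_prop
    rw [natCast_le_analyticOrderAt (hBd.analyticAt ρ₀)]
    exact ⟨B1, hB1a, hBB⟩
  · intro s hs
    have h1 : 1 < s.re := by rw [hs]; norm_num
    have hs1 : s ≠ 1 := by
      rintro rfl
      norm_num at hs
    have h2 := ArithmeticFunction.LSeries_vonMangoldt_eq_deriv_riemannZeta_div h1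
    rw [h2]
    have hz : riemannZeta s ≠ 0 := riemannZeta_ne_zero_of_one_lt_re h1
    have h3 : deriv FF s = riemannZeta s + (s - 1) * deriv riemannZeta s := by
      have h4 : FF =ᶠ[𝓝 s] fun z => (z - 1) * riemannZeta z := by
        filter_upwards [isOpen_ne.mem_nhds hs1] with z hz
        exact FF_eq_ne hz
      rw [h4.deriv_eq]
      have h5 := ((hasDerivAt_id s).sub_const 1).mul (differentiableAt_riemannZeta hs1).hasDerivAt
      have h6 : HasDerivAt (fun z => (z - 1) * riemannZeta z)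
        (1 * riemannZeta s + (s - 1) * deriv riemannZeta s) s := h5
      rw [h6.deriv, one_mul]
    rw [h3, FF_eq_ne hs1]
    field_simp
    ring
  · intro z z1 z2
    have hz : ‖z‖ ≤ 2 + |z.im| := by
      have := Complex.norm_le_abs_re_add_abs_im z
      rw [abs_of_nonneg (by linarith)] at this
      linarith
    have hz1 : ‖z - 1‖ ≤ 1 + |z.im| := by
      have := Complex.norm_le_abs_re_add_abs_im (z - 1)
      rw [Complex.sub_re, Complex.sub_im, Complex.one_re, Complex.one_im, sub_zero] at this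
      have h3 : |z.re - 1| ≤ 1 := abs_le.2 ⟨by linarith, by linarith⟩
      linarith
    have h4 := FF_bound (1 / 2) (by norm_num) z z1
    have h5 := deriv_FF_bound z z1
    have hi := abs_nonneg z.im
    set t := |z.im| with ht
    have h6 : ‖FF z‖ ≤ 3 * (3 + t) ^ 2 := by
      refine h4.trans ?_
      have : (1 + ‖z‖) ^ 2 ≤ (3 + t) ^ 2 := pow_le_pow_left₀ (by positivity) (by linarith) 2
      norm_num
      linarith
    have h7 : ‖deriv FF z‖ ≤ 20 * (4 + t) ^ 2 := by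
      refine h5.trans ?_
      have : (2 + ‖z‖) ^ 2 ≤ (4 + t) ^ 2 := pow_le_pow_left₀ (by positivity) (by linarith) 2
      linarith
    refine (norm_sub_le _ _).trans ?_
    rw [norm_mul]
    have h8 : ‖z - 1‖ * ‖deriv FF z‖ ≤ (1 + t) * (20 * (4 + t) ^ 2) :=
      mul_le_mul hz1 h7 (norm_nonneg _) (by positivity)
    nlinarith [pow_nonneg hi 2, pow_nonneg hi 3]

end

end Pool.Agent.W190
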