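import Pool.Agent.W190.A1
import Pool.Agent.H353R2.K4

/-! # Perron type representation of the smoothed sums -/

set_option autoImplicit false

open Complex MeasureTheory Filter Topology Set FourierTransform
open H353 (ln ln_re ln_im ln_cont ln_ne ln_normSq ln_lower)

namespace Pool.Agent.W190

noncomputable section

/-- `f w = ∫ exp (s w) Φ` on the line `Re s = 2` -/
structure Rep (f : ℝ → ℂ) (Φ : ℝ → ℂ) : Prop where
  cont : Continuous Φ
  int : Integrable Φ
  eq : ∀ w : ℝ, f w = ∫ ξ, cexp (ln 2 ξ * w) * Φ ξ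

theorem norm_exp_ln (ξ w : ℝ) : ‖cexp (ln 2 ξ * w)‖ = Real.exp (2 * w) := by
  rw [Complex.norm_exp, Complex.re_mul_ofReal, ln_re]

theorem exp_int {Φ : ℝ → ℂ} (hc : Continuous Φ) (hi : Integrable Φ) (w : ℝ) :
    Integrable (fun ξ => cexp (ln 2 ξ * w) * Φ ξ) := by
  refine (hi.norm.const_mul (Real.exp (2 * w))).mono' ?_ (ae_of_all _ fun ξ => ?_)
  · have := ln_cont 2
    exact (by fun_prop : Continuous _).aestronglyMeasurable
  · rw [norm_mul, norm_exp_ln]

theorem norm_exp_sub_one (z : ℂ) (hz : 0 ≤ z.re) : ‖cexp z - 1‖ ≤ ‖z‖ * Real.exp z.re := by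
  by_cases hz0 : z = 0
  · simp [hz0]
  have h1 : cexp z - 1 = z * ∫ t in (0:ℝ)..1, cexp (z * t) := by
    rw [integral_exp_mul_complex hz0]
    simp only [ofReal_one, mul_one, ofReal_zero, mul_zero, Complex.exp_zero]
    field_simp
  rw [h1, norm_mul]
  refine mul_le_mul_of_nonneg_left ?_ (norm_nonneg _)
  have h2 : ‖∫ t in (0:ℝ)..1, cexp (z * t)‖ ≤ Real.exp z.re * |1 - 0| := by
    refine intervalIntegral.norm_integral_le_of_norm_le_const fun t ht => ?_
    rw [uIoc_of_le zero_le_one] at ht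
    rw [Complex.norm_exp, Complex.re_mul_ofReal]
    refine Real.exp_le_exp.2 ?_
    nlinarith [ht.1, ht.2]
  simpa using h2

theorem kap_norm (h : ℝ) (hh : 0 < h) (s : ℂ) (hs : 0 ≤ s.re) (hs0 : s ≠ 0) :
    ‖kap h s‖ ≤ Real.exp (s.re * h) := by
  unfold kap
  have hz : s * (h : ℂ) ≠ 0 := mul_ne_zero hs0 (by exact_mod_cast hh.ne')
  rw [norm_div, div_le_iff₀ (norm_pos_iff.2 hz), mul_comm (Real.exp _)]
  have := norm_exp_sub_one (s * h) (by rw [Complex.re_mul_ofReal]; positivity)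
  rwa [Complex.re_mul_ofReal] at this

theorem kap_norm' (h : ℝ) (hh : 0 < h) (s : ℂ) (hs0 : s ≠ 0) :
    ‖kap h s‖ ≤ (Real.exp (s.re * h) + 1) / (‖s‖ * h) := by
  unfold kap
  rw [norm_div, norm_mul, Complex.norm_real, Real.norm_eq_abs, abs_of_pos hh]
  have : 0 < ‖s‖ := norm_pos_iff.2 hs0
  refine div_le_div_of_nonneg_right ?_ (by positivity)
  refine (norm_sub_le _ _).trans ?_
  rw [Complex.norm_exp, Complex.re_mul_ofReal, norm_one]

theorem kap_ln_cont (h : ℝ) (hh : 0 < h) : Continuous (fun ξ => kap h (ln 2 ξ)) := by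
  have := ln_cont 2
  unfold kap
  refine Continuous.div (by fun_prop) (by fun_prop) fun ξ => ?_
  exact mul_ne_zero (ln_ne 2 ξ (by norm_num)) (by exact_mod_cast hh.ne')

/-- general: multiply the density by a bounded continuous factor -/
theorem mul_int {Φ K : ℝ → ℂ} (hi : Integrable Φ) (hK : Continuous K) (C : ℝ)
    (hC : ∀ ξ, ‖K ξ‖ ≤ C) : Integrable (fun ξ => K ξ * Φ ξ) :=
  hi.bdd_mul hK.aestronglyMeasurable (ae_of_all _ hC)

theorem Rep.avg {f Φ : ℝ → ℂ} (hf : Rep f Φ) {h : ℝ} (hh : 0 < h) :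
    Rep (Pool.Agent.W190.avg h f) (fun ξ => kap h (ln 2 ξ) * Φ ξ) := by
  have hkc := kap_ln_cont h hh
  have hlc := ln_cont 2
  refine ⟨hkc.mul hf.cont, mul_int hf.int hkc (Real.exp (2 * h)) fun ξ => ?_, fun w => ?_⟩
  · have := kap_norm h hh (ln 2 ξ) (by rw [ln_re]; norm_num) (ln_ne 2 ξ (by norm_num))
    rwa [ln_re] at this
  · unfold Pool.Agent.W190.avg
    have hle : w ≤ w + h := by linarith
    have e1 : ∫ v in w..(w + h), f v = ∫ v in Ioc w (w + h), ∫ ξ, cexp (ln 2 ξ * v) * Φ ξ := by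
      rw [intervalIntegral.integral_of_le hle]
      exact integral_congr_ae (ae_of_all _ fun v => hf.eq v)
    have hprod : Integrable (Function.uncurry fun (v : ℝ) (ξ : ℝ) => cexp (ln 2 ξ * v) * Φ ξ)
        ((volume.restrict (Ioc w (w + h))).prod volume) := by
      have hI : Integrable (fun v : ℝ => Real.exp (2 * v)) (volume.restrict (Ioc w (w + h))) := by
        have : IntervalIntegrable (fun v : ℝ => Real.exp (2 * v)) volume w (w + h) :=
          Continuous.intervalIntegrable (by fun_prop) _ _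
        rwa [intervalIntegrable_iff_integrableOn_Ioc_of_le hle] at this
      refine (hI.mul_prod hf.int.norm).mono' ?_ (ae_of_all _ fun p => ?_)
      · have hcont : Continuous (Function.uncurry fun (v : ℝ) (ξ : ℝ) => cexp (ln 2 ξ * v) * Φ ξ) := by
          have := hf.cont
          unfold Function.uncurry
          fun_prop
        exact hcont.aestronglyMeasurable
      · simp only [Function.uncurry]
        rw [norm_mul, norm_exp_ln]
    rw [e1, integral_integral_swap hprod, ← integral_const_mul]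
    refine integral_congr_ae (ae_of_all _ fun ξ => ?_)
    simp only
    have hs0 := ln_ne 2 ξ (by norm_num)
    have hhc : (h : ℂ) ≠ 0 := by exact_mod_cast hh.ne'
    rw [integral_mul_const, ← intervalIntegral.integral_of_le hle, integral_exp_mul_complex hs0]
    unfold kap
    push_cast
    rw [mul_add, Complex.exp_add]
    field_simp

theorem Rep.avgs {f Φ : ℝ → ℂ} (hf : Rep f Φ) {h : ℝ} (hh : 0 < h) (n : ℕ) :
    Rep (Pool.Agent.W190.avgs h n f) (fun ξ => kap h (ln 2 ξ) ^ n * Φ ξ) := by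
  induction n with
  | zero =>
    have : (fun ξ => kap h (ln 2 ξ) ^ 0 * Φ ξ) = Φ := by funext ξ; simp
    rw [this]
    exact hf
  | succ n ih =>
    have := ih.avg hh
    have e : (fun ξ => kap h (ln 2 ξ) ^ (n + 1) * Φ ξ) =
        fun ξ => kap h (ln 2 ξ) * (kap h (ln 2 ξ) ^ n * Φ ξ) := by
      funext ξ; ring
    rw [e]
    exact this

theorem Rep.shf {f Φ : ℝ → ℂ} (hf : Rep f Φ) (d : ℝ) (c : ℂ) :
    Rep (Pool.Agent.W190.shf d c f) (fun ξ => (1 - c * cexp (ln 2 ξ * d)) * Φ ξ) := by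
  have hlc := ln_cont 2
  refine ⟨(by fun_prop : Continuous fun ξ => (1 - c * cexp (ln 2 ξ * d))).mul hf.cont,
    mul_int hf.int (by fun_prop) (1 + ‖c‖ * Real.exp (2 * d)) fun ξ => ?_, fun w => ?_⟩
  · refine (norm_sub_le _ _).trans ?_
    rw [norm_one, norm_mul, norm_exp_ln]
  · unfold Pool.Agent.W190.shf
    rw [hf.eq, hf.eq, ← integral_const_mul, ← integral_sub (exp_int hf.cont hf.int w)
      ((exp_int hf.cont hf.int (w + d)).const_mul c)]
    refine integral_congr_ae (ae_of_all _ fun ξ => ?_)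
    simp only
    push_cast
    rw [mul_add, Complex.exp_add]
    ring

theorem Rep.dif {f Φ : ℝ → ℂ} (hf : Rep f Φ) (h : ℝ) :
    Rep (Pool.Agent.W190.dif h f) (fun ξ => ((cexp (ln 2 ξ * h) - 1) / h) * Φ ξ) := by
  have hlc := ln_cont 2
  refine ⟨(by fun_prop : Continuous fun ξ => ((cexp (ln 2 ξ * h) - 1) / h)).mul hf.cont,
    mul_int hf.int (by fun_prop) ((Real.exp (2 * h) + 1) / |h|) fun ξ => ?_, fun w => ?_⟩
  · rw [norm_div, Complex.norm_real, Real.norm_eq_abs]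
    refine div_le_div_of_nonneg_right ?_ (abs_nonneg _)
    refine (norm_sub_le _ _).trans ?_
    rw [norm_one, norm_exp_ln]
  · unfold Pool.Agent.W190.dif
    rw [hf.eq, hf.eq, ← integral_sub (exp_int hf.cont hf.int (w + h)) (exp_int hf.cont hf.int w),
      ← integral_div]
    refine integral_congr_ae (ae_of_all _ fun ξ => ?_)
    simp only
    push_cast
    rw [mul_add, Complex.exp_add]
    ring

/-- the symbol of `shfs` -/
def sy (d : ℝ) (L : List ℂ) (s : ℂ) : ℂ := (L.map fun r => 1 - cexp ((s - r) * d)).prod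

theorem Rep.shfs {f Φ : ℝ → ℂ} (hf : Rep f Φ) (d : ℝ) (L : List ℂ) :
    Rep (Pool.Agent.W190.shfs d L f) (fun ξ => sy d L (ln 2 ξ) * Φ ξ) := by
  induction L with
  | nil =>
    have : (fun ξ => sy d [] (ln 2 ξ) * Φ ξ) = Φ := by funext ξ; simp [sy]
    rw [this]
    exact hf
  | cons r L ih =>
    have := ih.shf d (cexp (-(r * d)))
    have e : (fun ξ => sy d (r :: L) (ln 2 ξ) * Φ ξ) =
        fun ξ => (1 - cexp (-(r * d)) * cexp (ln 2 ξ * d)) * (sy d L (ln 2 ξ) * Φ ξ) := by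
      funext ξ
      unfold sy
      rw [List.map_cons, List.prod_cons, ← Complex.exp_add]
      have : -(r * (d : ℂ)) + ln 2 ξ * d = (ln 2 ξ - r) * d := by ring
      rw [this]
      ring
    rw [e]
    exact this

/-! ## the ramp -/

theorem te_int (s : ℂ) (hs : 0 < s.re) :
    IntegrableOn (fun t : ℝ => (t : ℂ) * cexp (-s * t)) (Ioi 0) := by
  have h1 : IntegrableOn (fun t : ℝ => t ^ (1:ℝ) * Real.exp (-s.re * t ^ (1:ℝ))) (Ioi 0) :=
    integrableOn_rpow_mul_exp_neg_mul_rpow (by norm_num) (by norm_num) hs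
  refine h1.mono' (by fun_prop : Continuous _).aestronglyMeasurable ?_
  refine (ae_restrict_mem measurableSet_Ioi).mono fun t ht => ?_
  have ht0 : (0:ℝ) < t := ht
  rw [norm_mul, Complex.norm_real, Real.norm_eq_abs, abs_of_pos ht0, Complex.norm_exp,
    Complex.re_mul_ofReal, Complex.neg_re, Real.rpow_one]

theorem te_val (s : ℂ) (hs : 0 < s.re) :
    ∫ t in Ioi (0:ℝ), (t : ℂ) * cexp (-s * t) = (s ^ 2)⁻¹ := by
  have hs0 : s ≠ 0 := by rintro rfl; simp at hs
  have hder : ∀ t ∈ Ici (0:ℝ), HasDerivAt (fun t : ℝ => -((t : ℂ) / s + (s ^ 2)⁻¹) * cexp (-s * t))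
      ((t : ℂ) * cexp (-s * t)) t := by
    intro t _
    have h1 : HasDerivAt (fun z : ℂ => -(z / s + (s ^ 2)⁻¹) * cexp (-s * z))
        (-(1 / s) * cexp (-s * t) + -((t : ℂ) / s + (s ^ 2)⁻¹) * (cexp (-s * t) * (-s * 1))) (t : ℂ) :=
      ((((hasDerivAt_id (t : ℂ)).div_const s).add_const ((s ^ 2)⁻¹)).neg).mul
        (((hasDerivAt_id (t : ℂ)).const_mul (-s)).cexp)
    have h2 := h1.comp_ofReal
    convert h2 using 1
    field_simp
    ring
  have hlim : Tendsto (fun t : ℝ => -((t : ℂ) / s + (s ^ 2)⁻¹) * cexp (-s * t)) atTop (𝓝 0) := by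
    rw [tendsto_zero_iff_norm_tendsto_zero]
    have hb : Tendsto (fun t : ℝ => (1 / ‖s‖) * (t ^ (1:ℝ) * Real.exp (-s.re * t)) +
        (1 / ‖s‖ ^ 2) * (t ^ (0:ℝ) * Real.exp (-s.re * t))) atTop (𝓝 0) := by
      have a1 := (tendsto_rpow_mul_exp_neg_mul_atTop_nhds_zero 1 s.re hs).const_mul (1 / ‖s‖)
      have a2 := (tendsto_rpow_mul_exp_neg_mul_atTop_nhds_zero 0 s.re hs).const_mul (1 / ‖s‖ ^ 2)
      simpa using a1.add a2
    refine squeeze_zero' (Eventually.of_forall fun t => norm_nonneg _) ?_ hb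
    filter_upwards [eventually_ge_atTop (0:ℝ)] with t ht
    rw [norm_mul, norm_neg, Complex.norm_exp, Complex.re_mul_ofReal, Complex.neg_re]
    have h3 : ‖(t : ℂ) / s + (s ^ 2)⁻¹‖ ≤ t / ‖s‖ + 1 / ‖s‖ ^ 2 := by
      refine (norm_add_le _ _).trans (le_of_eq ?_)
      rw [norm_div, Complex.norm_real, Real.norm_eq_abs, abs_of_nonneg ht, norm_inv, norm_pow,
        one_div]
    have he := Real.exp_pos (-s.re * t)
    calc _ ≤ (t / ‖s‖ + 1 / ‖s‖ ^ 2) * Real.exp (-s.re * t) := mul_le_mul_of_nonneg_right h3 he.le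
      _ = _ := by rw [Real.rpow_one, Real.rpow_zero]; ring
  rw [integral_Ioi_of_hasDerivAt_of_tendsto' hder (te_int s hs) hlim]
  simp

theorem ln_sq_inv_le (ξ : ℝ) : ‖((ln 2 ξ) ^ 2)⁻¹‖ ≤ (1 + ξ ^ 2)⁻¹ := by
  rw [norm_inv, norm_pow]
  have h := ln_lower 2 ξ
  have e : min ((2:ℝ) ^ 2) 1 = 1 := by norm_num
  rw [e, one_mul] at h
  exact inv_anti₀ (by positivity) h

theorem ln_sq_inv_cont : Continuous (fun ξ : ℝ => ((ln 2 ξ) ^ 2)⁻¹) := by
  have := ln_cont 2
  exact Continuous.inv₀ (by fun_prop) fun ξ => pow_ne_zero 2 (ln_ne 2 ξ (by norm_num))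

theorem ln_sq_inv_int : Integrable (fun ξ : ℝ => ((ln 2 ξ) ^ 2)⁻¹) :=
  integrable_inv_one_add_sq.mono' ln_sq_inv_cont.aestronglyMeasurable (ae_of_all _ ln_sq_inv_le)

theorem ramp (y : ℝ) : ∫ ξ : ℝ, cexp (ln 2 ξ * y) * ((ln 2 ξ) ^ 2)⁻¹ = ((max y 0 : ℝ) : ℂ) := by
  set g : ℝ → ℂ := fun t => ((max t 0 : ℝ) : ℂ) * cexp (-2 * t) with hg
  have hgc : Continuous g := by rw [hg]; fun_prop
  have hind : ∀ s : ℂ, (fun t : ℝ => ((max t 0 : ℝ) : ℂ) * cexp (-s * t)) =
      indicator (Ioi 0) (fun t : ℝ => (t : ℂ) * cexp (-s * t)) := by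
    intro s
    funext t
    by_cases ht : 0 < t
    · rw [indicator_of_mem (show t ∈ Ioi 0 from ht), max_eq_left ht.le]
    · rw [indicator_of_notMem (show t ∉ Ioi 0 from ht), max_eq_right (not_lt.1 ht)]
      simp
  have hgi : Integrable g := by
    rw [hg, hind 2, integrable_indicator_iff measurableSet_Ioi]
    exact te_int 2 (by norm_num)
  have hF : 𝓕 g = fun ξ => ((ln 2 ξ) ^ 2)⁻¹ := by
    funext ξ
    rw [Real.fourier_real_eq_integral_exp_smul, ← te_val _ (by rw [ln_re]; norm_num),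
      ← integral_indicator measurableSet_Ioi, ← hind]
    refine integral_congr_ae (ae_of_all _ fun v => ?_)
    simp only [hg, smul_eq_mul, ln]
    rw [mul_left_comm, ← Complex.exp_add]
    congr 2
    push_cast
    ring
  have h1 : 𝓕⁻ (𝓕 g) = g := Continuous.fourierInv_fourier_eq hgc hgi (by rw [hF]; exact ln_sq_inv_int)
  have h2 := congrFun h1 y
  rw [hF, Real.fourierInv_eq'] at h2
  have h3 : (∫ ξ : ℝ, cexp (ln 2 ξ * y) * ((ln 2 ξ) ^ 2)⁻¹) =
      (∫ v : ℝ, cexp (((2 * Real.pi * inner ℝ v y : ℝ) : ℂ) * I) • ((ln 2 v) ^ 2)⁻¹) * cexp (2 * y) := by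
    rw [← integral_mul_const]
    refine integral_congr_ae (ae_of_all _ fun v => ?_)
    simp only [smul_eq_mul, ln]
    have e : cexp (((2 : ℝ) + ((2 * Real.pi * v : ℝ) : ℂ) * I) * y) =
        cexp (((2 * Real.pi * inner ℝ v y : ℝ) : ℂ) * I) * cexp (2 * y) := by
      rw [← Complex.exp_add]
      congr 1
      simp
      ring
    rw [e]
    ring
  rw [h3, h2]
  simp only [hg]
  rw [mul_assoc, ← Complex.exp_add]
  simp

end

end Pool.Agent.W190
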