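import Pool.Agent.H810R2.CSd

/-! # Residue of a simple pole in a rectangle -/

set_option autoImplicit false

open Set Filter Topology Complex Metric MeasureTheory
open Pool.Agent.H810R2.CSd (rect rect_inv)

namespace Pool.Agent.W190

theorem rect_add_on {x₀ x₁ y₀ y₁ : ℝ} {f g : ℂ → ℂ}
    (hf : ∀ y, y = y₀ ∨ y = y₁ → ContinuousOn (fun x : ℝ => f (x + (y : ℝ) * I)) (uIcc x₀ x₁))
    (hf' : ∀ x, x = x₀ ∨ x = x₁ → ContinuousOn (fun y : ℝ => f ((x : ℝ) + y * I)) (uIcc y₀ y₁))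
    (hg : ∀ y, y = y₀ ∨ y = y₁ → ContinuousOn (fun x : ℝ => g (x + (y : ℝ) * I)) (uIcc x₀ x₁))
    (hg' : ∀ x, x = x₀ ∨ x = x₁ → ContinuousOn (fun y : ℝ => g ((x : ℝ) + y * I)) (uIcc y₀ y₁)) :
    rect x₀ x₁ y₀ y₁ (fun z => f z + g z) = rect x₀ x₁ y₀ y₁ f + rect x₀ x₁ y₀ y₁ g := by
  unfold rect
  rw [intervalIntegral.integral_add ((hf _ (Or.inl rfl)).intervalIntegrable)
      ((hg _ (Or.inl rfl)).intervalIntegrable),
    intervalIntegral.integral_add ((hf _ (Or.inr rfl)).intervalIntegrable)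
      ((hg _ (Or.inr rfl)).intervalIntegrable),
    intervalIntegral.integral_add ((hf' _ (Or.inr rfl)).intervalIntegrable)
      ((hg' _ (Or.inr rfl)).intervalIntegrable),
    intervalIntegral.integral_add ((hf' _ (Or.inl rfl)).intervalIntegrable)
      ((hg' _ (Or.inl rfl)).intervalIntegrable)]
  simp only [smul_eq_mul]
  ring

theorem rect_res {Ω : Set ℂ} {g : ℂ → ℂ} (hg : DifferentiableOn ℂ g Ω) (hΩ : IsOpen Ω)
    {x₀ x₁ y₀ y₁ : ℝ} {w : ℂ} (h1 : x₀ < w.re) (h2 : w.re < x₁) (h3 : y₀ < w.im) (h4 : w.im < y₁)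
    (hsub : ∀ z : ℂ, x₀ ≤ z.re → z.re ≤ x₁ → y₀ ≤ z.im → z.im ≤ y₁ → z ∈ Ω) :
    rect x₀ x₁ y₀ y₁ (fun z => (z - w)⁻¹ * g z) = 2 * Real.pi * I * g w := by
  have hx : x₀ ≤ x₁ := by linarith
  have hy : y₀ ≤ y₁ := by linarith
  have hwΩ : w ∈ Ω := hsub w h1.le h2.le h3.le h4.le
  have hd : DifferentiableOn ℂ (dslope g w) Ω :=
    (Complex.differentiableOn_dslope (hΩ.mem_nhds hwΩ)).2 hg
  have hneh : ∀ y, y = y₀ ∨ y = y₁ → ∀ x : ℝ, (x : ℂ) + (y : ℝ) * I - w ≠ 0 := by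
    rintro y (rfl | rfl) x h
    · have := congrArg Complex.im h; simp at this; linarith
    · have := congrArg Complex.im h; simp at this; linarith
  have hnev : ∀ x, x = x₀ ∨ x = x₁ → ∀ y : ℝ, ((x : ℝ) : ℂ) + y * I - w ≠ 0 := by
    rintro x (rfl | rfl) y h
    · have := congrArg Complex.re h; simp at this; linarith
    · have := congrArg Complex.re h; simp at this; linarith
  have hsplit : ∀ z, z - w ≠ 0 → (z - w)⁻¹ * g z = dslope g w z + (z - w)⁻¹ * g w := by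
    intro z hz
    rw [dslope_of_ne g (sub_ne_zero.1 hz), slope_def_field]
    field_simp
    ring
  have hrw : rect x₀ x₁ y₀ y₁ (fun z => (z - w)⁻¹ * g z) =
      rect x₀ x₁ y₀ y₁ (fun z => dslope g w z + (z - w)⁻¹ * g w) := by
    unfold rect
    rw [intervalIntegral.integral_congr fun x _ => hsplit _ (hneh y₀ (Or.inl rfl) x),
      intervalIntegral.integral_congr fun x _ => hsplit _ (hneh y₁ (Or.inr rfl) x),
      intervalIntegral.integral_congr fun y _ => hsplit _ (hnev x₁ (Or.inr rfl) y),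
      intervalIntegral.integral_congr fun y _ => hsplit _ (hnev x₀ (Or.inl rfl) y)]
  have hrect0 : rect x₀ x₁ y₀ y₁ (dslope g w) = 0 := by
    have h := integral_boundary_rect_eq_zero_of_differentiableOn (dslope g w) (⟨x₀, y₀⟩ : ℂ)
      (⟨x₁, y₁⟩ : ℂ) (hd.mono fun z hz => by
        rw [mem_reProdIm] at hz
        obtain ⟨⟨a1, a2⟩, a3, a4⟩ := hz
        simp only [min_eq_left hx, max_eq_right hx, min_eq_left hy, max_eq_right hy] at a1 a2 a3 a4
        exact hsub z a1 a2 a3 a4)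
    exact h
  have cl : ∀ y, y = y₀ ∨ y = y₁ → ContinuousOn (fun x : ℝ => dslope g w (x + (y : ℝ) * I))
      (uIcc x₀ x₁) := by
    intro y hy'
    refine hd.continuousOn.comp (by fun_prop) ?_
    intro x hx'
    rw [uIcc_of_le hx] at hx'
    rcases hy' with rfl | rfl
    · exact hsub _ (by simpa using hx'.1) (by simpa using hx'.2) (by simp) (by simpa using hy)
    · exact hsub _ (by simpa using hx'.1) (by simpa using hx'.2) (by simpa using hy) (by simp)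
  have cv : ∀ x, x = x₀ ∨ x = x₁ → ContinuousOn (fun y : ℝ => dslope g w ((x : ℝ) + y * I))
      (uIcc y₀ y₁) := by
    intro x hx'
    refine hd.continuousOn.comp (by fun_prop) ?_
    intro y hy'
    rw [uIcc_of_le hy] at hy'
    rcases hx' with rfl | rfl
    · exact hsub _ (by simp) (by simpa using hx) (by simpa using hy'.1) (by simpa using hy'.2)
    · exact hsub _ (by simpa using hx) (by simp) (by simpa using hy'.1) (by simpa using hy'.2)
  rw [hrw, rect_add_on (f := dslope g w) (g := fun z => (z - w)⁻¹ * g w) cl cv]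
  · rw [hrect0, zero_add]
    have : rect x₀ x₁ y₀ y₁ (fun z => (z - w)⁻¹ * g w) =
        rect x₀ x₁ y₀ y₁ (fun z => (z - w)⁻¹) * g w := by
      unfold rect
      simp only [intervalIntegral.integral_mul_const, smul_eq_mul]
      ring
    rw [this, rect_inv h1 h2 h3 h4]
  · intro y hy'
    exact ((Continuous.inv₀ (by fun_prop) (hneh y hy')).mul continuous_const).continuousOn
  · intro x hx'
    exact ((Continuous.inv₀ (by fun_prop) (hnev x hx')).mul continuous_const).continuousOn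

/-- the estimate which we use -/
theorem res_ineq {Ω : Set ℂ} {g : ℂ → ℂ} (hg : DifferentiableOn ℂ g Ω) (hΩ : IsOpen Ω)
    {x₀ x₁ T : ℝ} {w : ℂ} (h1 : x₀ < w.re) (h2 : w.re < x₁) (h3 : |w.im| < T)
    (hsub : ∀ z : ℂ, x₀ ≤ z.re → z.re ≤ x₁ → |z.im| ≤ T → z ∈ Ω) (V W : ℝ)
    (hV : ∀ y : ℝ, |y| ≤ T → ‖((x₀ : ℂ) + y * I - w)⁻¹ * g (x₀ + y * I)‖ ≤ V)
    (hW : ∀ x y : ℝ, x₀ ≤ x → x ≤ x₁ → |y| = T → ‖((x : ℂ) + y * I - w)⁻¹ * g (x + y * I)‖ ≤ W) :
    2 * Real.pi * ‖g w‖ ≤ ‖∫ y in (-T)..T, ((x₁ : ℂ) + y * I - w)⁻¹ * g (x₁ + y * I)‖ +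
      V * (2 * T) + W * (2 * (x₁ - x₀)) := by
  have hT : 0 < T := lt_of_le_of_lt (abs_nonneg _) h3
  have hx : x₀ ≤ x₁ := by linarith
  obtain ⟨h3a, h3b⟩ := abs_lt.1 h3
  have key := rect_res hg hΩ h1 h2 h3a h3b (fun z a1 a2 a3 a4 => hsub z a1 a2 (abs_le.2 ⟨a3, a4⟩))
  unfold rect at key
  set b0 := ∫ x in x₀..x₁, ((x : ℂ) + ((-T : ℝ) : ℂ) * I - w)⁻¹ * g (x + ((-T : ℝ) : ℂ) * I) with hb0
  set b1 := ∫ x in x₀..x₁, ((x : ℂ) + (T : ℂ) * I - w)⁻¹ * g (x + (T : ℂ) * I) with hb1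
  set v1 := ∫ y in (-T)..T, ((x₁ : ℂ) + y * I - w)⁻¹ * g (x₁ + y * I) with hv1
  set v0 := ∫ y in (-T)..T, ((x₀ : ℂ) + y * I - w)⁻¹ * g (x₀ + y * I) with hv0
  have e0 : ‖b0‖ ≤ W * |x₁ - x₀| := by
    refine intervalIntegral.norm_integral_le_of_norm_le_const fun x hx' => ?_
    rw [uIoc_of_le hx] at hx'
    exact hW x (-T) hx'.1.le hx'.2 (by rw [abs_neg, abs_of_pos hT])
  have e1 : ‖b1‖ ≤ W * |x₁ - x₀| := by
    refine intervalIntegral.norm_integral_le_of_norm_le_const fun x hx' => ?_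
    rw [uIoc_of_le hx] at hx'
    exact hW x T hx'.1.le hx'.2 (abs_of_pos hT)
  have e2 : ‖v0‖ ≤ V * |T - -T| := by
    refine intervalIntegral.norm_integral_le_of_norm_le_const fun y hy' => ?_
    rw [uIoc_of_le (by linarith)] at hy'
    exact hV y (abs_le.2 ⟨hy'.1.le, hy'.2⟩)
  rw [abs_of_nonneg (by linarith : 0 ≤ x₁ - x₀)] at e0 e1
  rw [abs_of_nonneg (by linarith : (0:ℝ) ≤ T - -T)] at e2
  have e3 : (2 * Real.pi : ℂ) * g w = v1 - v0 - I * (b0 - b1) := by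
    have hI : I * I = -1 := Complex.I_mul_I
    simp only [smul_eq_mul] at key
    have hI0 := Complex.I_ne_zero
    have : I * ((2 * Real.pi : ℂ) * g w) = I * (v1 - v0 - I * (b0 - b1)) := by
      linear_combination (-1 : ℂ) * key + (b0 - b1) * hI
    exact mul_left_cancel₀ hI0 this
  have e4 : 2 * Real.pi * ‖g w‖ = ‖(2 * Real.pi : ℂ) * g w‖ := by
    rw [norm_mul]
    congr 1
    rw [norm_mul, Complex.norm_real, Real.norm_eq_abs, abs_of_pos Real.pi_pos]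
    simp
  rw [e4, e3]
  have e5 : ‖v1 - v0 - I * (b0 - b1)‖ ≤ ‖v1‖ + ‖v0‖ + (‖b0‖ + ‖b1‖) := by
    refine (norm_sub_le _ _).trans (add_le_add (norm_sub_le _ _) ?_)
    rw [norm_mul, Complex.norm_I, one_mul]
    exact norm_sub_le _ _
  refine e5.trans ?_
  linarith

end Pool.Agent.W190
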