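import Pool.Agent.H353R2.Z3

/-! # A mean value theorem for long Dirichlet polynomials -/

set_option autoImplicit false
set_option maxHeartbeats 4000000

open Complex Filter Topology Set MeasureTheory

namespace Pool.Agent.W190

open ZU.J_a3 H353

/-- the kernel -/
noncomputable def Kr (T : ℝ) (m n : ℕ) : ℝ := Real.exp (-(T ^ 2 * (Real.log n - Real.log m) ^ 2 / 4))

theorem Kr_symm (T : ℝ) (m n : ℕ) : Kr T m n = Kr T n m := by
  unfold Kr
  congr 4
  ring

theorem Kr_nonneg (T : ℝ) (m n : ℕ) : 0 ≤ Kr T m n := (Real.exp_pos _).le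

theorem log_diff_lower {m n : ℕ} (hm : 1 ≤ m) (hn : 1 ≤ n) (h : m ≤ 2 * n) :
    |(n : ℝ) - m| / (2 * n) ≤ |Real.log n - Real.log m| := by
  have hm0 : (0:ℝ) < m := by exact_mod_cast hm
  have hn0 : (0:ℝ) < n := by exact_mod_cast hn
  have h2 : (m:ℝ) ≤ 2 * n := by exact_mod_cast h
  rcases le_total m n with h1 | h1
  · have h3 : (m:ℝ) ≤ n := by exact_mod_cast h1
    have h4 := Real.one_sub_inv_le_log_of_pos (x := (n:ℝ) / m) (by positivity)
    rw [Real.log_div hn0.ne' hm0.ne', inv_div] at h4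
    rw [abs_of_nonneg (by linarith)]
    refine le_trans ?_ (h4.trans (le_abs_self _))
    have e : 1 - (m:ℝ) / n = (n - m) / n := by field_simp
    rw [e]
    exact div_le_div_of_nonneg_left (by linarith) hn0 (by linarith)
  · have h3 : (n:ℝ) ≤ m := by exact_mod_cast h1
    have h4 := Real.one_sub_inv_le_log_of_pos (x := (m:ℝ) / n) (by positivity)
    rw [Real.log_div hm0.ne' hn0.ne', inv_div] at h4
    rw [abs_of_nonpos (by linarith), abs_sub_comm (Real.log n)]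
    refine le_trans ?_ (h4.trans (le_abs_self _))
    have e : 1 - (n:ℝ) / m = (m - n) / m := by field_simp
    rw [e]
    have e2 : -((n:ℝ) - m) = m - n := by ring
    rw [e2]
    exact div_le_div_of_nonneg_left (by linarith) hm0 h2

theorem Kr_le {T : ℝ} (hT : 1 ≤ T) {m n : ℕ} (hm : 1 ≤ m) (hn : 1 ≤ n) :
    Kr T m n ≤ 3 * Real.exp (-(T / (4 * n))) ^ (Nat.dist m n) + Real.exp (-(T ^ 2 / 16)) := by
  have hm0 : (0:ℝ) < m := by exact_mod_cast hm
  have hn0 : (0:ℝ) < n := by exact_mod_cast hn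
  unfold Kr
  by_cases h : m ≤ 2 * n
  · have h1 := log_diff_lower hm hn h
    have hd : |(n:ℝ) - m| = (Nat.dist m n : ℝ) := by
      unfold Nat.dist
      rcases le_total m n with h2 | h2
      · rw [Nat.sub_eq_zero_of_le h2, zero_add, Nat.cast_sub h2, abs_of_nonneg]
        have : (m:ℝ) ≤ n := by exact_mod_cast h2
        linarith
      · rw [Nat.sub_eq_zero_of_le h2, add_zero, Nat.cast_sub h2, abs_of_nonpos]
        · ring
        · have : (n:ℝ) ≤ m := by exact_mod_cast h2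
          linarith
    rw [hd] at h1
    set k : ℝ := (Nat.dist m n : ℝ) with hk
    have hk0 : 0 ≤ k := Nat.cast_nonneg _
    set y : ℝ := T * k / (4 * n) with hy
    have h3 : y ^ 2 ≤ T ^ 2 * (Real.log n - Real.log m) ^ 2 / 4 := by
      have h4 : (k / (2 * n)) ^ 2 ≤ (Real.log n - Real.log m) ^ 2 := by
        rw [← sq_abs (Real.log n - Real.log m)]
        exact pow_le_pow_left₀ (by positivity) h1 2
      have e : y ^ 2 = T ^ 2 * (k / (2 * n)) ^ 2 / 4 := by
        rw [hy]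
        field_simp
        ring
      rw [e]
      gcongr
    have h5 : Real.exp (-(T ^ 2 * (Real.log n - Real.log m) ^ 2 / 4)) ≤
        3 * Real.exp (-(T / (4 * n))) ^ (Nat.dist m n) := by
      calc Real.exp (-(T ^ 2 * (Real.log n - Real.log m) ^ 2 / 4)) ≤ Real.exp (1 - y) := by
            refine Real.exp_le_exp.2 ?_
            nlinarith [sq_nonneg (y - 1 / 2)]
        _ = Real.exp 1 * Real.exp (-y) := by rw [← Real.exp_add]; congr 1
        _ ≤ 3 * Real.exp (-y) := by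
            have := Real.exp_one_lt_d9
            gcongr
            linarith
        _ = _ := by
            rw [← Real.exp_nat_mul]
            congr 2
            rw [hy, ← hk]
            ring
    have := Real.exp_pos (-(T ^ 2 / 16))
    linarith
  · rw [not_le] at h
    have h2 : (2:ℝ) * n ≤ m := by exact_mod_cast h.le
    have h3 : 1 / 2 ≤ |Real.log n - Real.log m| := by
      have h4 : Real.log (2 * n) ≤ Real.log m := Real.log_le_log (by positivity) h2
      rw [Real.log_mul (by norm_num) hn0.ne'] at h4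
      have h5 := Real.log_two_gt_d9
      rw [abs_sub_comm]
      refine le_trans ?_ (le_abs_self _)
      linarith
    have h4 : (1 / 2) ^ 2 ≤ (Real.log n - Real.log m) ^ 2 := by
      rw [← sq_abs (Real.log n - Real.log m)]
      exact pow_le_pow_left₀ (by positivity) h3 2
    have h5 : Real.exp (-(T ^ 2 * (Real.log n - Real.log m) ^ 2 / 4)) ≤ Real.exp (-(T ^ 2 / 16)) := by
      refine Real.exp_le_exp.2 ?_
      have : T ^ 2 * (1 / 2) ^ 2 / 4 ≤ T ^ 2 * (Real.log n - Real.log m) ^ 2 / 4 := by gcongr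
      linarith
    have : 0 ≤ 3 * Real.exp (-(T / (4 * n))) ^ (Nat.dist m n) := by positivity
    linarith

/-- the two sided geometric sum -/
theorem geo_dist (q : ℝ) (hq0 : 0 ≤ q) (hq1 : q < 1) (n : ℕ) (S : Finset ℕ) :
    ∑ m ∈ S, q ^ (Nat.dist m n) ≤ 2 * (1 - q)⁻¹ := by
  have hsum : Summable fun k : ℕ => q ^ k := summable_geometric_of_lt_one hq0 hq1
  have htsum : ∑' k : ℕ, q ^ k = (1 - q)⁻¹ := tsum_geometric_of_lt_one hq0 hq1
  rw [← Finset.sum_filter_add_sum_filter_not S (fun m => m ≤ n)]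
  have h1 : ∑ m ∈ S.filter (fun m => m ≤ n), q ^ (Nat.dist m n) ≤ (1 - q)⁻¹ := by
    have e : ∑ m ∈ S.filter (fun m => m ≤ n), q ^ (Nat.dist m n) =
        ∑ k ∈ (S.filter (fun m => m ≤ n)).image (fun m => n - m), q ^ k := by
      rw [Finset.sum_image]
      · refine Finset.sum_congr rfl fun m hm => ?_
        rw [Finset.mem_filter] at hm
        congr 1
        unfold Nat.dist
        omega
      · intro a ha b hb hab
        simp only [Finset.coe_filter, mem_ofPred_eq] at ha hb hab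
        omega
    rw [e, ← htsum]
    exact hsum.sum_le_tsum _ fun k _ => by positivity
  have h2 : ∑ m ∈ S.filter (fun m => ¬ m ≤ n), q ^ (Nat.dist m n) ≤ (1 - q)⁻¹ := by
    have e : ∑ m ∈ S.filter (fun m => ¬ m ≤ n), q ^ (Nat.dist m n) =
        ∑ k ∈ (S.filter (fun m => ¬ m ≤ n)).image (fun m => m - n), q ^ k := by
      rw [Finset.sum_image]
      · refine Finset.sum_congr rfl fun m hm => ?_
        rw [Finset.mem_filter] at hm
        congr 1
        unfold Nat.dist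
        omega
      · intro a ha b hb hab
        simp only [Finset.coe_filter, mem_ofPred_eq] at ha hb hab
        omega
    rw [e, ← htsum]
    exact hsum.sum_le_tsum _ fun k _ => by positivity
  linarith

theorem Kr_sum {T : ℝ} (hT : 1 ≤ T) (S : Finset ℕ) (L : ℕ) (hS : ∀ m ∈ S, 1 ≤ m ∧ m ≤ L)
    (hL : (L : ℝ) ≤ T ^ 2) {n : ℕ} (hn : 1 ≤ n) :
    ∑ m ∈ S, Kr T m n ≤ 24 * (1 + n / T) := by
  have hT0 : 0 < T := by linarith
  have hn0 : (0:ℝ) < n := by exact_mod_cast hn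
  set c : ℝ := T / (4 * n) with hc
  have hc0 : 0 < c := by positivity
  set q : ℝ := Real.exp (-c) with hq
  have hq0 : 0 < q := Real.exp_pos _
  have hq1 : q < 1 := by rw [hq]; exact Real.exp_lt_one_iff.2 (by linarith)
  have hqi : (1 - q)⁻¹ ≤ 1 + 1 / c := by
    have h1 : q ≤ 1 / (1 + c) := by
      rw [hq, Real.exp_neg, one_div]
      exact inv_anti₀ (by linarith) (by linarith [Real.add_one_le_exp c])
    have h2 : c / (1 + c) ≤ 1 - q := by
      have : 1 - 1 / (1 + c) = c / (1 + c) := by field_simp; ring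
      linarith
    calc (1 - q)⁻¹ ≤ (c / (1 + c))⁻¹ := inv_anti₀ (by positivity) h2
      _ = 1 + 1 / c := by field_simp; ring
  have h3 : ∑ m ∈ S, Kr T m n ≤ ∑ m ∈ S, (3 * q ^ (Nat.dist m n) + Real.exp (-(T ^ 2 / 16))) :=
    Finset.sum_le_sum fun m hm => Kr_le hT (hS m hm).1 hn
  refine h3.trans ?_
  rw [Finset.sum_add_distrib, ← Finset.mul_sum, Finset.sum_const, nsmul_eq_mul]
  have h4 := geo_dist q hq0.le hq1 n S
  have h5 : (S.card : ℝ) ≤ L := by
    have : S.card ≤ (Finset.Icc 1 L).card := Finset.card_le_card fun m hm => by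
      rw [Finset.mem_Icc]
      exact hS m hm
    rw [Nat.card_Icc] at this
    exact_mod_cast (by omega : S.card ≤ L)
  have h6 : (S.card : ℝ) * Real.exp (-(T ^ 2 / 16)) ≤ 16 := by
    set y : ℝ := T ^ 2 / 16 with hy
    have h7 : y * Real.exp (-y) ≤ 1 := by
      have h8 := Real.add_one_le_exp y
      rw [Real.exp_neg, ← div_eq_mul_inv, div_le_one (Real.exp_pos _)]
      linarith
    calc (S.card : ℝ) * Real.exp (-y) ≤ T ^ 2 * Real.exp (-y) := by
          have := Real.exp_pos (-y)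
          gcongr
          linarith
      _ = 16 * (y * Real.exp (-y)) := by rw [hy]; ring
      _ ≤ 16 := by linarith
  have h8 : 1 / c = 4 * (n / T) := by rw [hc]; field_simp
  rw [h8] at hqi
  have h9 : (0:ℝ) ≤ n / T := by positivity
  nlinarith

/-- the mean value theorem -/
theorem gmv (σ : ℝ) (S : Finset ℕ) (a : ℕ → ℝ) (L : ℕ) (hS : ∀ n ∈ S, 1 ≤ n ∧ n ≤ L)
    (T : ℝ) (hT : 1 ≤ T) (hL : (L : ℝ) ≤ T ^ 2) :
    Integrable (fun t : ℝ => Real.exp (-(t / T) ^ 2) *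
      ‖∑ n ∈ S, (a n : ℂ) * (n : ℂ) ^ (-((σ : ℂ) + t * I))‖ ^ 2) ∧
    ∫ t : ℝ, Real.exp (-(t / T) ^ 2) *
      ‖∑ n ∈ S, (a n : ℂ) * (n : ℂ) ^ (-((σ : ℂ) + t * I))‖ ^ 2 ≤
      24 * √Real.pi * ∑ n ∈ S, (T + n) * (a n ^ 2 * (n : ℝ) ^ (-(2 * σ))) := by
  have hT0 : 0 < T := by linarith
  have hS1 : ∀ n ∈ S, 1 ≤ n := fun n hn => (hS n hn).1
  obtain ⟨hIr, _⟩ := gauss_mv' σ S a L hS T hT0
  refine ⟨hIr, ?_⟩
  have hint : ∀ m n : ℕ, Integrable fun t : ℝ => (((a m * gr σ m) * (a n * gr σ n) : ℝ) : ℂ) *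
        cexp (((-(1 / T ^ 2) : ℝ) : ℂ) * (t : ℂ) ^ 2 +
          (I * ((Real.log n - Real.log m : ℝ) : ℂ)) * t + 0) :=
    fun m n => (gm_int T _ hT0).const_mul _
  have hexp : (fun t : ℝ => ((Real.exp (-(t / T) ^ 2) *
      ‖∑ n ∈ S, (a n : ℂ) * (n : ℂ) ^ (-((σ : ℂ) + t * I))‖ ^ 2 : ℝ) : ℂ)) = fun t : ℝ =>
      ∑ m ∈ S, ∑ n ∈ S, (((a m * gr σ m) * (a n * gr σ n) : ℝ) : ℂ) *
        cexp (((-(1 / T ^ 2) : ℝ) : ℂ) * (t : ℂ) ^ 2 +
          (I * ((Real.log n - Real.log m : ℝ) : ℂ)) * t + 0) := by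
    funext t
    exact gm_expand' σ T t S hS1 a
  have hval : ∫ t : ℝ, Real.exp (-(t / T) ^ 2) *
      ‖∑ n ∈ S, (a n : ℂ) * (n : ℂ) ^ (-((σ : ℂ) + t * I))‖ ^ 2 =
        ∑ m ∈ S, ∑ n ∈ S, ((a m * gr σ m) * (a n * gr σ n)) *
        (√Real.pi * T * Kr T m n) := by
    have h1 : ((∫ t : ℝ, Real.exp (-(t / T) ^ 2) *
      ‖∑ n ∈ S, (a n : ℂ) * (n : ℂ) ^ (-((σ : ℂ) + t * I))‖ ^ 2 : ℝ) : ℂ) =
        ((∑ m ∈ S, ∑ n ∈ S, ((a m * gr σ m) * (a n * gr σ n)) *
        (√Real.pi * T * Kr T m n) : ℝ) : ℂ) := by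
      rw [← integral_complex_ofReal]
      rw [hexp, integral_finsetSum _ fun m _ => integrable_finsetSum _ fun n _ => hint m n,
        Complex.ofReal_sum]
      refine Finset.sum_congr rfl fun m _ => ?_
      rw [integral_finsetSum _ fun n _ => hint m n, Complex.ofReal_sum]
      refine Finset.sum_congr rfl fun n _ => ?_
      rw [integral_const_mul, gm_val T _ hT0, ← Complex.ofReal_mul]
      rfl
    exact Complex.ofReal_injective h1
  rw [hval]
  have hr2 : ∀ n ∈ S, (a n * gr σ n) ^ 2 = a n ^ 2 * (n : ℝ) ^ (-(2 * σ)) := by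
    intro n hn
    have hn0 : (0 : ℝ) < n := by exact_mod_cast hS1 n hn
    have e : gr σ n * gr σ n = (n : ℝ) ^ (-(2 * σ)) := by
      rw [gr, ← Real.exp_add, Real.rpow_def_of_pos hn0]
      congr 1
      ring
    rw [← e]; ring
  set x : ℕ → ℝ := fun n => a n * gr σ n with hx
  have hc : 0 ≤ √Real.pi * T := by positivity
  have h1 : ∑ m ∈ S, ∑ n ∈ S, x m * x n * (√Real.pi * T * Kr T m n) ≤
      √Real.pi * T * ∑ m ∈ S, ∑ n ∈ S, (x m ^ 2 + x n ^ 2) / 2 * Kr T m n := by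
    rw [Finset.mul_sum]
    refine Finset.sum_le_sum fun m _ => ?_
    rw [Finset.mul_sum]
    refine Finset.sum_le_sum fun n _ => ?_
    have h2 : x m * x n ≤ (x m ^ 2 + x n ^ 2) / 2 := by nlinarith [sq_nonneg (x m - x n)]
    have h3 := Kr_nonneg T m n
    calc x m * x n * (√Real.pi * T * Kr T m n) = √Real.pi * T * (x m * x n * Kr T m n) := by ring
      _ ≤ _ := mul_le_mul_of_nonneg_left (mul_le_mul_of_nonneg_right h2 h3) hc
  refine h1.trans ?_
  have h2 : ∑ m ∈ S, ∑ n ∈ S, (x m ^ 2 + x n ^ 2) / 2 * Kr T m n =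
      ∑ n ∈ S, x n ^ 2 * ∑ m ∈ S, Kr T m n := by
    have e1 : ∑ m ∈ S, ∑ n ∈ S, (x m ^ 2 + x n ^ 2) / 2 * Kr T m n =
        ∑ m ∈ S, ∑ n ∈ S, x m ^ 2 / 2 * Kr T m n + ∑ m ∈ S, ∑ n ∈ S, x n ^ 2 / 2 * Kr T m n := by
      rw [← Finset.sum_add_distrib]
      refine Finset.sum_congr rfl fun m _ => ?_
      rw [← Finset.sum_add_distrib]
      refine Finset.sum_congr rfl fun n _ => ?_
      ring
    have e2 : ∑ m ∈ S, ∑ n ∈ S, x n ^ 2 / 2 * Kr T m n = ∑ n ∈ S, ∑ m ∈ S, x n ^ 2 / 2 * Kr T m n :=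
      Finset.sum_comm
    have e3 : ∑ m ∈ S, ∑ n ∈ S, x m ^ 2 / 2 * Kr T m n = ∑ n ∈ S, ∑ m ∈ S, x n ^ 2 / 2 * Kr T m n := by
      refine Finset.sum_congr rfl fun m _ => Finset.sum_congr rfl fun n _ => ?_
      rw [Kr_symm]
    rw [e1, e2, e3, ← Finset.sum_add_distrib]
    refine Finset.sum_congr rfl fun n _ => ?_
    rw [Finset.mul_sum, ← Finset.sum_add_distrib]
    refine Finset.sum_congr rfl fun m _ => ?_
    ring
  rw [h2]
  have h3 : ∑ n ∈ S, x n ^ 2 * ∑ m ∈ S, Kr T m n ≤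
      ∑ n ∈ S, (a n ^ 2 * (n : ℝ) ^ (-(2 * σ))) * (24 * (1 + n / T)) := by
    refine Finset.sum_le_sum fun n hn => ?_
    rw [← hr2 n hn]
    exact mul_le_mul_of_nonneg_left (Kr_sum hT S L hS hL (hS1 n hn)) (sq_nonneg _)
  calc √Real.pi * T * ∑ n ∈ S, x n ^ 2 * ∑ m ∈ S, Kr T m n
      ≤ √Real.pi * T * ∑ n ∈ S, (a n ^ 2 * (n : ℝ) ^ (-(2 * σ))) * (24 * (1 + n / T)) :=
        mul_le_mul_of_nonneg_left h3 hc
    _ = _ := by
        rw [Finset.mul_sum, Finset.mul_sum]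
        refine Finset.sum_congr rfl fun n _ => ?_
        field_simp

end Pool.Agent.W190
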